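import Mathlib

/-!
# Revision cardinals: sequence form of Shelah's question

For an uncountable cardinal `lam` let `Bad lam` be the set of the regular cardinals `k < lam` such that
`k⁺` is not a `lam`-revision cardinal. Shelah's question asks whether `Bad lam` is always finite.
-/

set_option autoImplicit false

universe u

open Cardinal Set

namespace Pool.Agent.Results.MP_629216_lc.SequenceForm

/-- `X` is a family of subsets of `α` of cardinality `< ρ₂` such that every subset of `α` of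
cardinality `< ρ₃` is covered by fewer than `ρ₄` members of `X`. -/
def IsCover (α : Type u) (ρ₂ ρ₃ ρ₄ : Cardinal.{u}) (X : Set (Set α)) : Prop :=
  (∀ x ∈ X, #x < ρ₂) ∧ ∀ b : Set α, #b < ρ₃ → ∃ Q : Set (Set α), Q ⊆ X ∧ #Q < ρ₄ ∧ b ⊆ ⋃₀ Q

/-- The covering number `cov(ρ₁, ρ₂, ρ₃, ρ₄)`: the least cardinality of a family `X` of subsets of
(the ordinal) `ρ₁` of cardinality `< ρ₂` such that every subset of `ρ₁` of cardinality `< ρ₃` is
covered by fewer than `ρ₄` members of `X`. -/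
noncomputable def cov (ρ₁ ρ₂ ρ₃ ρ₄ : Cardinal.{u}) : Cardinal.{u} :=
  sInf {c | ∃ X : Set (Set ρ₁.ord.ToType), IsCover ρ₁.ord.ToType ρ₂ ρ₃ ρ₄ X ∧ #X = c}

/-- For infinite cardinals `χ ≤ lam`: `χ` is a `lam`-revision cardinal. -/
def IsRevision (lam χ : Cardinal.{u}) : Prop :=
  ∃ σ : Cardinal.{u}, 2 ≤ σ ∧ σ < χ ∧ cov lam χ χ σ ≤ lam

/-- The regular cardinals `k < lam` such that `k⁺` is not a `lam`-revision cardinal. -/
def Bad (lam : Cardinal.{u}) : Set Cardinal.{u} :=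
  {k | k.IsRegular ∧ k < lam ∧ ¬ IsRevision lam (Order.succ k)}

theorem IsCover.comap {α β : Type u} (f : β → α) (hf : Function.Injective f)
    {ρ₂ ρ₃ ρ₄ : Cardinal.{u}} {X : Set (Set α)} (hX : IsCover α ρ₂ ρ₃ ρ₄ X) :
    IsCover β ρ₂ ρ₃ ρ₄ ((fun x => f ⁻¹' x) '' X) := by
  refine ⟨?_, ?_⟩
  · rintro _ ⟨x, hx, rfl⟩
    exact (mk_preimage_of_injective f x hf).trans_lt (hX.1 x hx)
  · intro b hb
    obtain ⟨Q, hQX, hQ, hbQ⟩ := hX.2 (f '' b) (mk_image_le.trans_lt hb)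
    refine ⟨(fun x => f ⁻¹' x) '' Q, image_mono hQX, mk_image_le.trans_lt hQ, ?_⟩
    intro x hx
    obtain ⟨q, hq, hxq⟩ := hbQ (mem_image_of_mem f hx)
    exact ⟨_, mem_image_of_mem _ hq, hxq⟩

theorem cov_le {α : Type u} {ρ₁ ρ₂ ρ₃ ρ₄ : Cardinal.{u}} (h : ρ₁ ≤ #α) {X : Set (Set α)}
    (hX : IsCover α ρ₂ ρ₃ ρ₄ X) : cov ρ₁ ρ₂ ρ₃ ρ₄ ≤ #X := by
  have h1 : #(ρ₁.ord.ToType) ≤ #α := by rwa [mk_ord_toType]
  obtain ⟨f⟩ := h1
  have h2 : cov ρ₁ ρ₂ ρ₃ ρ₄ ≤ #((fun x => f ⁻¹' x) '' X) :=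
    csInf_le' ⟨_, hX.comap f f.injective, rfl⟩
  exact h2.trans mk_image_le

theorem exists_cover (α : Type u) {χ σ : Cardinal.{u}} (hσ : 1 < σ) :
    IsCover α χ χ σ {x | #x < χ} := by
  refine ⟨fun x hx => hx, fun b hb => ⟨{b}, ?_, ?_, ?_⟩⟩
  · simpa using hb
  · simpa using hσ
  · simp

theorem cov_spec (ρ : Cardinal.{u}) {χ σ : Cardinal.{u}} (hσ : 1 < σ) :
    ∃ X : Set (Set ρ.ord.ToType), IsCover ρ.ord.ToType χ χ σ X ∧ #X = cov ρ χ χ σ :=
  csInf_mem (s := {c | ∃ X : Set (Set ρ.ord.ToType), IsCover ρ.ord.ToType χ χ σ X ∧ #X = c})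
    ⟨_, _, exists_cover _ hσ, rfl⟩

theorem cov_mono {ρ ρ' : Cardinal.{u}} (h : ρ ≤ ρ') {χ σ : Cardinal.{u}} (hσ : 1 < σ) :
    cov ρ χ χ σ ≤ cov ρ' χ χ σ := by
  obtain ⟨X, hX, hc⟩ := cov_spec ρ' (χ := χ) hσ
  rw [← hc]
  exact cov_le (by rwa [mk_ord_toType]) hX

theorem cov_anti (ρ : Cardinal.{u}) {χ σ σ' : Cardinal.{u}} (hσ : 1 < σ) (h : σ ≤ σ') :
    cov ρ χ χ σ' ≤ cov ρ χ χ σ := by
  obtain ⟨X, hX, hc⟩ := cov_spec ρ (χ := χ) hσ
  rw [← hc]
  refine cov_le (α := ρ.ord.ToType) (by rw [mk_ord_toType]) ⟨hX.1, fun b hb => ?_⟩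
  obtain ⟨Q, h1, h2, h3⟩ := hX.2 b hb
  exact ⟨Q, h1, h2.trans_le h, h3⟩

theorem cov_small {μ k : Cardinal.{u}} (hk : 1 < k) (h : μ ≤ k) :
    cov μ (Order.succ k) (Order.succ k) k ≤ 1 := by
  have hX : IsCover μ.ord.ToType (Order.succ k) (Order.succ k) k {Set.univ} := by
    refine ⟨?_, fun b _ => ⟨{Set.univ}, Subset.rfl, ?_, ?_⟩⟩
    · rintro x rfl
      rw [mk_univ, mk_ord_toType]
      exact Order.lt_succ_of_le h
    · simpa using hk
    · simp
  have := cov_le (ρ₁ := μ) (by rw [mk_ord_toType]) hX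
  simpa using this

/-- If the cofinality of `μ` is not `k`, then the covering numbers of the smaller cardinals bound
that of `μ`. -/
theorem cov_limit {μ k lam : Cardinal.{u}} (hk : k.IsRegular) (hkμ : k < μ) (hμ : μ ≤ lam)
    (hcof : μ.ord.cof ≠ k)
    (hsmall : ∀ ν < μ, cov ν (Order.succ k) (Order.succ k) k ≤ lam) :
    cov μ (Order.succ k) (Order.succ k) k ≤ lam := by
  have h1k : 1 < k := one_lt_aleph0.trans_le hk.aleph0_le
  have hμ0 : ℵ₀ ≤ μ := hk.aleph0_le.trans hkμ.le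
  have hlam0 : ℵ₀ ≤ lam := hμ0.trans hμ
  have : NoMaxOrder μ.ord.ToType := Cardinal.noMaxOrder hμ0
  -- covers of the initial segments
  have hseg : ∀ a : μ.ord.ToType, ∃ Y : Set (Set μ.ord.ToType), #Y ≤ lam ∧
      (∀ y ∈ Y, #y < Order.succ k) ∧
      ∀ b : Set μ.ord.ToType, b ⊆ Iio a → #b < Order.succ k →
        ∃ Q : Set (Set μ.ord.ToType), Q ⊆ Y ∧ #Q < k ∧ b ⊆ ⋃₀ Q := by
    intro a
    have ha : #(Iio a) < μ := mk_Iio_toType_ord_lt a
    obtain ⟨X, hX, hc⟩ := cov_spec (#(Iio a)) (χ := Order.succ k) h1k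
    have he : #(Iio a) ≤ #((#(Iio a)).ord.ToType) := by rw [mk_ord_toType]
    obtain ⟨f⟩ := he
    have hX' := hX.comap f f.injective
    refine ⟨(fun z => Subtype.val '' z) '' ((fun x => f ⁻¹' x) '' X), ?_, ?_, ?_⟩
    · exact mk_image_le.trans (mk_image_le.trans (hc.le.trans (hsmall _ ha)))
    · rintro _ ⟨z, hz, rfl⟩
      exact mk_image_le.trans_lt (hX'.1 z hz)
    · intro b hba hb
      obtain ⟨Q, hQX, hQ, hbQ⟩ := hX'.2 (Subtype.val ⁻¹' b)
        ((mk_preimage_of_injective _ _ Subtype.val_injective).trans_lt hb)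
      refine ⟨(fun z => Subtype.val '' z) '' Q, image_mono hQX, mk_image_le.trans_lt hQ, ?_⟩
      intro x hx
      obtain ⟨q, hq, hxq⟩ := hbQ (show (⟨x, hba hx⟩ : Iio a) ∈ Subtype.val ⁻¹' b from hx)
      exact ⟨_, mem_image_of_mem _ hq, ⟨_, hxq, rfl⟩⟩
  choose Y hYc hY1 hY2 using hseg
  have hcov : IsCover μ.ord.ToType (Order.succ k) (Order.succ k) k (⋃ a, Y a) := by
    refine ⟨?_, ?_⟩
    · intro x hx
      obtain ⟨a, ha⟩ := mem_iUnion.1 hx
      exact hY1 a x ha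
    · intro b hb
      have hbk : #b ≤ k := Order.lt_succ_iff.1 hb
      rcases lt_or_gt_of_ne hcof with hlt | hgt
      · -- cofinality smaller than `k`
        obtain ⟨S, hS, hSc⟩ := Order.exists_cof_eq μ.ord.ToType
        have hSk : #S < k := by
          rw [hSc, Ordinal.cof_toType]; exact hlt
        have hQ : ∀ s : μ.ord.ToType, ∃ Q : Set (Set μ.ord.ToType), Q ⊆ Y s ∧ #Q < k ∧
            b ∩ Iio s ⊆ ⋃₀ Q := fun s => hY2 s (b ∩ Iio s) inter_subset_right
              ((mk_le_mk_of_subset inter_subset_left).trans_lt hb)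
        choose Q hQ1 hQ2 hQ3 using hQ
        refine ⟨⋃ s ∈ S, Q s, ?_, ?_, ?_⟩
        · intro q hq
          simp only [mem_iUnion] at hq
          obtain ⟨s, _, hq⟩ := hq
          exact mem_iUnion.2 ⟨s, hQ1 s hq⟩
        · exact (card_biUnion_lt_iff_forall_of_isRegular hk hSk).2 fun s _ => hQ2 s
        · intro x hx
          obtain ⟨x', hx'⟩ := exists_gt x
          obtain ⟨s, hs, hxs⟩ := hS x'
          obtain ⟨q, hq, hxq⟩ := hQ3 s ⟨hx, hx'.trans_le hxs⟩
          exact ⟨q, mem_iUnion₂.2 ⟨s, hs, hq⟩, hxq⟩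
      · -- cofinality larger than `k`
        have hnc : ¬ IsCofinal b := by
          intro hc
          have := Order.cof_le hc
          rw [Ordinal.cof_toType] at this
          exact absurd (this.trans hbk) (not_le.2 hgt)
        simp only [IsCofinal, not_forall, not_exists, not_and, not_le] at hnc
        obtain ⟨a, ha⟩ := hnc
        obtain ⟨Q, h1, h2, h3⟩ := hY2 a b (fun y hy => ha y hy) hb
        exact ⟨Q, h1.trans (subset_iUnion Y a), h2, h3⟩
  refine (cov_le (by rw [mk_ord_toType]) hcov).trans ?_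
  refine (mk_iUnion_le _).trans ?_
  rw [mk_ord_toType]
  exact (mul_le_mul' hμ (ciSup_le' hYc)).trans (mul_eq_self hlam0).le

theorem not_isRevision_iff {k lam : Cardinal.{u}} (hk : k.IsRegular) :
    ¬ IsRevision lam (Order.succ k) ↔ lam < cov lam (Order.succ k) (Order.succ k) k := by
  have h2k : 2 ≤ k := (natCast_lt_aleph0 (n := 2)).le.trans hk.aleph0_le
  constructor
  · intro h
    by_contra hc
    exact h ⟨k, h2k, Order.lt_succ k, not_lt.1 hc⟩
  · rintro h ⟨σ, h2, hσ, hc⟩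
    have h1 : (1 : Cardinal) < σ := Cardinal.one_lt_two.trans_le h2
    exact absurd ((cov_anti lam h1 (Order.lt_succ_iff.1 hσ)).trans hc) (not_le.2 h)

/-- `k` is bad at `lam` iff some singular cardinal `μ ≤ lam` of cofinality `k` has covering number
larger than `lam`. -/
theorem mem_bad_iff {k lam : Cardinal.{u}} :
    k ∈ Bad lam ↔ k.IsRegular ∧ ∃ μ : Cardinal.{u}, k < μ ∧ μ.ord.cof = k ∧ μ ≤ lam ∧
      lam < cov μ (Order.succ k) (Order.succ k) k := by
  constructor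
  · rintro ⟨hk, hkl, hr⟩
    rw [not_isRevision_iff hk] at hr
    refine ⟨hk, ?_⟩
    have h1k : 1 < k := one_lt_aleph0.trans_le hk.aleph0_le
    let s : Set Cardinal.{u} := {μ | lam < cov μ (Order.succ k) (Order.succ k) k}
    have hs : s.Nonempty := ⟨lam, hr⟩
    obtain ⟨μ, hμ, hmin⟩ := Cardinal.lt_wf.has_min s hs
    have hle : μ ≤ lam := not_lt.1 (hmin lam hr)
    have hkμ : k < μ := by
      by_contra hc
      have h1 := cov_small h1k (not_lt.1 hc)
      exact absurd (h1.trans (h1k.le.trans hkl.le)) (not_le.2 hμ)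
    refine ⟨μ, hkμ, ?_, hle, hμ⟩
    by_contra hcof
    exact absurd (cov_limit hk hkμ hle hcof fun ν hν => not_lt.1 fun hc => hmin ν hc hν)
      (not_le.2 hμ)
  · rintro ⟨hk, μ, hkμ, _, hle, hc⟩
    have h1k : 1 < k := one_lt_aleph0.trans_le hk.aleph0_le
    exact ⟨hk, hkμ.trans_le hle, (not_isRevision_iff hk).2 (hc.trans_le (cov_mono hle h1k))⟩

theorem exists_strictMono {α : Type*} [LinearOrder α] [WellFoundedLT α] (f : ℕ → α)
    (hf : Function.Injective f) : ∃ g : ℕ → ℕ, StrictMono g ∧ StrictMono (f ∘ g) := by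
  obtain ⟨g, h | h⟩ := exists_increasing_or_nonincreasing_subseq (fun x y : α => x < y) f
  · exact ⟨g, g.strictMono, fun m n hmn => h m n hmn⟩
  · exfalso
    obtain ⟨n, hn⟩ := WellFounded.not_rel_apply_succ (r := fun x y : α => x < y) (fun n => f (g n))
    exact hn (lt_of_le_of_ne (not_lt.1 (h n (n + 1) (Nat.lt_succ_self n)))
      (fun he => (Nat.succ_ne_self n) (g.injective (hf he))))

/-- The sequences which witness that infinitely many cardinals are bad at `lam`. -/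
theorem infinite_bad_iff {lam : Cardinal.{u}} :
    (Bad lam).Infinite ↔ ∃ k μ : ℕ → Cardinal.{u}, StrictMono k ∧ StrictMono μ ∧
      ∀ n, (k n).IsRegular ∧ k n < μ n ∧ (μ n).ord.cof = k n ∧ μ n ≤ lam ∧
        lam < cov (μ n) (Order.succ (k n)) (Order.succ (k n)) (k n) := by
  constructor
  · intro hinf
    obtain ⟨f⟩ : Nonempty (ℕ ↪ Bad lam) := ⟨hinf.natEmbedding _⟩
    have hf0 : Function.Injective (fun n => (f n : Cardinal.{u})) :=
      Subtype.val_injective.comp f.injective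
    obtain ⟨g, hg, hfg⟩ := exists_strictMono _ hf0
    have hb : ∀ n, ∃ μ : Cardinal.{u}, (f (g n) : Cardinal.{u}) < μ ∧
        μ.ord.cof = (f (g n) : Cardinal.{u}) ∧ μ ≤ lam ∧
        lam < cov μ (Order.succ (f (g n) : Cardinal.{u})) (Order.succ (f (g n) : Cardinal.{u}))
          (f (g n) : Cardinal.{u}) := fun n => (mem_bad_iff.1 (f (g n)).2).2
    choose μ h1 h2 h3 h4 using hb
    have hμ : Function.Injective μ := by
      intro m n hmn
      have : (f (g m) : Cardinal.{u}) = f (g n) := by rw [← h2 m, ← h2 n, hmn]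
      exact hg.injective (hf0 this)
    obtain ⟨e, he, hμe⟩ := exists_strictMono μ hμ
    exact ⟨fun n => f (g (e n)), μ ∘ e, hfg.comp he, hμe, fun n =>
      ⟨(f (g (e n))).2.1, h1 _, h2 _, h3 _, h4 _⟩⟩
  · rintro ⟨k, μ, hk, _, h⟩
    refine infinite_of_injective_forall_mem hk.injective fun n => ?_
    exact mem_bad_iff.2 ⟨(h n).1, μ n, (h n).2.1, (h n).2.2.1, (h n).2.2.2.1, (h n).2.2.2.2⟩

theorem bad_mono_aux {k μ ν lam : Cardinal.{u}} (hk : k.IsRegular) (h1 : k < μ)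
    (h2 : μ.ord.cof = k) (h4 : lam < cov μ (Order.succ k) (Order.succ k) k) (h5 : μ ≤ ν)
    (h6 : ν ≤ lam) : k ∈ Bad ν :=
  mem_bad_iff.2 ⟨hk, μ, h1, h2, h5, h6.trans_lt h4⟩

/-- **Main result.** (1) Shelah's question has a positive answer iff there are no singular cardinals
`μ₀ < μ₁ < ...` with strictly increasing cofinalities `kₙ` such that
`cov(μₙ, kₙ⁺, kₙ⁺, kₙ) > sup μₘ` for every `n`.
(2) At a least cardinal `lam` at which infinitely many regular cardinals are bad, `lam` is the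
supremum of such a sequence, `lam` has cofinality `ω` and only countably many cardinals are bad. -/
theorem result :
    ((∀ lam : Cardinal.{u}, ℵ₀ < lam → (Bad lam).Finite) ↔
      ¬ ∃ k μ : ℕ → Cardinal.{u}, StrictMono k ∧ StrictMono μ ∧
        ∀ n, (k n).IsRegular ∧ k n < μ n ∧ (μ n).ord.cof = k n ∧
          (⨆ m, μ m) < cov (μ n) (Order.succ (k n)) (Order.succ (k n)) (k n)) ∧
    ∀ lam : Cardinal.{u}, (Bad lam).Infinite → (∀ ν < lam, (Bad ν).Finite) →
      lam.ord.cof = ℵ₀ ∧ (Bad lam).Countable ∧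
      ∃ k μ : ℕ → Cardinal.{u}, StrictMono k ∧ StrictMono μ ∧ (⨆ m, μ m) = lam ∧
        ∀ n, (k n).IsRegular ∧ k n < μ n ∧ (μ n).ord.cof = k n ∧
          lam < cov (μ n) (Order.succ (k n)) (Order.succ (k n)) (k n) := by
  have key : ∀ (lam : Cardinal.{u}) (k μ : ℕ → Cardinal.{u}), StrictMono k → 
      (∀ n, (k n).IsRegular ∧ k n < μ n ∧ (μ n).ord.cof = k n ∧ μ n ≤ lam ∧
        lam < cov (μ n) (Order.succ (k n)) (Order.succ (k n)) (k n)) →
      (⨆ m, μ m) ≤ lam ∧ (Bad (⨆ m, μ m)).Infinite ∧ ℵ₀ < ⨆ m, μ m := by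
    intro lam k μ hk h
    have hle : (⨆ m, μ m) ≤ lam := ciSup_le' fun n => (h n).2.2.2.1
    have hle' : ∀ n, μ n ≤ ⨆ m, μ m := fun n => le_ciSup (bddAbove_of_small) n
    refine ⟨hle, infinite_of_injective_forall_mem hk.injective fun n =>
      bad_mono_aux (h n).1 (h n).2.1 (h n).2.2.1 (h n).2.2.2.2 (hle' n) hle, ?_⟩
    exact ((h 0).1.aleph0_le.trans_lt (h 0).2.1).trans_le (hle' 0)
  refine ⟨⟨?_, ?_⟩, ?_⟩
  · rintro hfin ⟨k, μ, hk, hμ, h⟩
    have hle' : ∀ n, μ n ≤ ⨆ m, μ m := fun n => le_ciSup (bddAbove_of_small) n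
    obtain ⟨_, h2, h3⟩ := key (⨆ m, μ m) k μ hk fun n =>
      ⟨(h n).1, (h n).2.1, (h n).2.2.1, hle' n, (h n).2.2.2⟩
    exact h2 (hfin _ h3)
  · intro hno lam hlam
    by_contra hinf
    obtain ⟨k, μ, hk, hμ, h⟩ := infinite_bad_iff.1 hinf
    obtain ⟨h1, _, _⟩ := key lam k μ hk h
    exact hno ⟨k, μ, hk, hμ, fun n =>
      ⟨(h n).1, (h n).2.1, (h n).2.2.1, h1.trans_lt (h n).2.2.2.2⟩⟩
  · intro lam hinf hmin
    obtain ⟨k, μ, hk, hμ, h⟩ := infinite_bad_iff.1 hinf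
    obtain ⟨h1, h2, h3⟩ := key lam k μ hk h
    have hlam : (⨆ m, μ m) = lam := by
      rcases h1.lt_or_eq with hlt | heq
      · exact absurd (hmin _ hlt) h2
      · exact heq
    have hcof : lam.ord.cof = ℵ₀ := by
      have hm : StrictMono fun n : ℕ => (μ n).ord := fun m n hmn => ord_lt_ord.2 (hμ hmn)
      have := Ordinal.lift_cof_iSup hm
      rw [← Ordinal.iSup_ord, hlam, Order.cof_nat] at this
      simpa using this
    have hlt : ∀ n, μ n < lam := fun n => by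
      rw [← hlam]
      exact (hμ (Nat.lt_succ_self n)).trans_le (le_ciSup (bddAbove_of_small) (n + 1))
    refine ⟨hcof, ?_, k, μ, hk, hμ, hlam, fun n =>
      ⟨(h n).1, (h n).2.1, (h n).2.2.1, (h n).2.2.2.2⟩⟩
    have hsub : Bad lam ⊆ {ℵ₀} ∪ ⋃ n, Bad (μ n) := by
      intro c hc
      obtain ⟨hcr, ν, c1, c2, c3, c4⟩ := mem_bad_iff.1 hc
      rcases c3.lt_or_eq with hν | hν
      · right
        obtain ⟨n, hn⟩ : ∃ n, ν < μ n := by
          by_contra hcon
          push Not at hcon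
          exact absurd (hlam ▸ ciSup_le' hcon) (not_le.2 hν)
        exact mem_iUnion.2 ⟨n, bad_mono_aux hcr c1 c2 c4 hn.le (hlt n).le⟩
      · left
        rw [mem_singleton_iff, ← c2, hν, hcof]
    refine Set.Countable.mono hsub ?_
    exact (countable_singleton _).union (countable_iUnion fun n => (hmin _ (hlt n)).countable)

end Pool.Agent.Results.MP_629216_lc.SequenceForm
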